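import Pool.Agent.KACG.Slopes

/-! Squad KACG, row S_MUL: the counting function determines the slopes. -/

open scoped ComplexConjugate ContDiff Topology

noncomputable section

namespace Pool.Agent.KACG.H8

open Pool.Agent.KACG Filter

/-- `x` is an odd multiple of `w` -/
def OM (w x : ℝ) : Prop := ∃ k : ℕ, x = (2 * (k : ℝ) + 1) * w

open Classical in
theorem jump {w x : ℝ} (hw : 0 < w) (hx : 0 < x) : ∃ n : ℕ,
    ∀ᶠ ε in 𝓝[>] (0 : ℝ), Cut w (x - ε) n ∧ Cut w (x + ε) (n + if OM w x then 1 else 0) := by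
  by_cases h : OM w x
  · obtain ⟨k, hk⟩ := h
    refine ⟨k, ?_⟩
    have h1 : ∀ᶠ ε in 𝓝[>] (0 : ℝ), ε < 2 * w := by
      have : Set.Ioo (0 : ℝ) (2 * w) ∈ 𝓝[>] (0 : ℝ) := Ioo_mem_nhdsGT (by positivity)
      filter_upwards [this] with ε hε
      exact hε.2
    filter_upwards [h1, self_mem_nhdsWithin] with ε he he0
    have he0' : 0 < ε := he0
    rw [if_pos ⟨k, hk⟩]
    refine ⟨⟨?_, ?_⟩, ?_, ?_⟩
    · rw [hk]; nlinarith
    · rw [hk]; nlinarith
    · rw [hk]; push_cast; nlinarith
    · rw [hk]; push_cast; nlinarith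
  · obtain ⟨n, hn⟩ : ∃ n, n = ⌊(x / w + 1) / 2⌋₊ := ⟨_, rfl⟩
    have hxw : 0 < x / w := div_pos hx hw
    have h1 : (n : ℝ) ≤ (x / w + 1) / 2 := by
      rw [hn]
      exact Nat.floor_le (by positivity)
    have h2 : (x / w + 1) / 2 < n + 1 := by
      rw [hn]
      exact Nat.lt_floor_add_one _
    have h3 : (2 * (n : ℝ) - 1) * w ≤ x := by
      rw [← le_div_iff₀ hw]
      linarith
    have h4 : x < (2 * (n : ℝ) + 1) * w := by
      rw [← div_lt_iff₀ hw]
      linarith
    have h5 : (2 * (n : ℝ) - 1) * w < x := by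
      rcases h3.lt_or_eq with h5 | h5
      · exact h5
      · exfalso
        rcases Nat.eq_zero_or_pos n with h6 | h6
        · rw [h6, Nat.cast_zero] at h5
          linarith
        · apply h
          refine ⟨n - 1, ?_⟩
          rw [Nat.cast_sub h6, Nat.cast_one, ← h5]
          ring
    refine ⟨n, ?_⟩
    rw [if_neg h, add_zero]
    have h6 : ∀ᶠ ε in 𝓝[>] (0 : ℝ), ε < x - (2 * (n : ℝ) - 1) * w := by
      have : Set.Ioo (0 : ℝ) (x - (2 * (n : ℝ) - 1) * w) ∈ 𝓝[>] (0 : ℝ) :=
        Ioo_mem_nhdsGT (by linarith)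
      filter_upwards [this] with ε hε
      exact hε.2
    have h7 : ∀ᶠ ε in 𝓝[>] (0 : ℝ), ε < (2 * (n : ℝ) + 1) * w - x := by
      have : Set.Ioo (0 : ℝ) ((2 * (n : ℝ) + 1) * w - x) ∈ 𝓝[>] (0 : ℝ) :=
        Ioo_mem_nhdsGT (by linarith)
      filter_upwards [this] with ε hε
      exact hε.2
    filter_upwards [h6, h7, self_mem_nhdsWithin] with ε he6 he7 he0
    have he0' : 0 < ε := he0
    exact ⟨⟨by linarith, by linarith⟩, by linarith, by linarith⟩

open Classical in
theorem count_eq (r r' : ℕ) (w : Fin r → ℝ) (w' : Fin r' → ℝ) (hw : ∀ i, 0 < w i)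
    (hw' : ∀ i, 0 < w' i)
    (H : ∀ (e : ℝ) (n : Fin r → ℕ) (n' : Fin r' → ℕ), 0 < e → (∀ i, Cut (w i) e (n i)) →
      (∀ i, Cut (w' i) e (n' i)) → ∑ i, n i = ∑ i, n' i) (x : ℝ) (hx : 0 < x) :
    (Finset.univ.filter fun i => OM (w i) x).card =
      (Finset.univ.filter fun i => OM (w' i) x).card := by
  choose n hn using fun i => jump (hw i) hx
  choose n' hn' using fun i => jump (hw' i) hx
  have h1 := eventually_all.2 hn
  have h2 := eventually_all.2 hn'
  have h3 : ∀ᶠ ε in 𝓝[>] (0 : ℝ), ε < x := by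
    have : Set.Ioo (0 : ℝ) x ∈ 𝓝[>] (0 : ℝ) := Ioo_mem_nhdsGT hx
    filter_upwards [this] with ε hε
    exact hε.2
  have h4 : ∀ᶠ ε in 𝓝[>] (0 : ℝ), 0 < ε := self_mem_nhdsWithin
  obtain ⟨ε, ⟨⟨ha, hb⟩, hc⟩, hd⟩ := (((h1.and h2).and h3).and h4).exists
  have e1 := H (x - ε) n n' (by linarith) (fun i => (ha i).1) (fun i => (hb i).1)
  have e2 := H (x + ε) _ _ (by linarith) (fun i => (ha i).2) (fun i => (hb i).2)
  rw [Finset.sum_add_distrib, Finset.sum_add_distrib, ← e1] at e2
  have e3 := Nat.add_left_cancel e2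
  rw [Finset.card_filter, Finset.card_filter]
  exact e3

open Classical in
theorem split_card {r : ℕ} (w : Fin r → ℝ) (hw : ∀ i, 0 < w i) (Y : Finset ℝ) (hY : ∀ i, w i ∈ Y)
    (x : ℝ) :
    (Finset.univ.filter fun i => OM (w i) x).card =
      (Finset.univ.filter fun i => w i = x).card +
      ∑ y ∈ Y.filter (fun y => y < x ∧ OM y x), (Finset.univ.filter fun i => w i = y).card := by
  have h1 : (Finset.univ.filter fun i => OM (w i) x) =
      (Finset.univ.filter fun i => w i = x) ∪
      (Finset.univ.filter fun i => w i < x ∧ OM (w i) x) := by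
    ext i
    simp only [Finset.mem_filter, Finset.mem_univ, true_and, Finset.mem_union]
    constructor
    · rintro ⟨k, hk⟩
      rcases Nat.eq_zero_or_pos k with h0 | h0
      · left
        rw [hk, h0]
        simp
      · right
        refine ⟨?_, k, hk⟩
        rw [hk]
        have h2 : (1 : ℝ) ≤ k := by exact_mod_cast h0
        have := hw i
        nlinarith
    · rintro (h | h)
      · exact ⟨0, by rw [h]; simp⟩
      · exact h.2
  have hdisj : Disjoint (Finset.univ.filter fun i => w i = x)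
      (Finset.univ.filter fun i => w i < x ∧ OM (w i) x) := by
    rw [Finset.disjoint_left]
    intro i hi hi'
    simp only [Finset.mem_filter, Finset.mem_univ, true_and] at hi hi'
    exact absurd hi hi'.1.ne
  rw [h1, Finset.card_union_of_disjoint hdisj]
  congr 1
  rw [Finset.card_eq_sum_card_fiberwise (f := w) (t := Y.filter (fun y => y < x ∧ OM y x))]
  · refine Finset.sum_congr rfl fun y hy => ?_
    congr 1
    ext i
    simp only [Finset.mem_filter, Finset.mem_univ, true_and]
    constructor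
    · exact fun h => h.2
    · intro h
      rw [h]
      exact ⟨(Finset.mem_filter.1 hy).2, rfl⟩
  · intro i hi
    have hi' := (Finset.mem_filter.1 hi).2
    exact Finset.mem_filter.2 ⟨hY i, hi'⟩

theorem mul_ : MulStmt := by
  classical
  intro r r' w w' hw hw' H
  obtain ⟨Y, hYd⟩ : ∃ Y : Finset ℝ, Y = Finset.univ.image w ∪ Finset.univ.image w' := ⟨_, rfl⟩
  have hY : ∀ i, w i ∈ Y := fun i => by
    rw [hYd]
    exact Finset.mem_union_left _ (Finset.mem_image_of_mem _ (Finset.mem_univ i))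
  have hY' : ∀ i, w' i ∈ Y := fun i => by
    rw [hYd]
    exact Finset.mem_union_right _ (Finset.mem_image_of_mem _ (Finset.mem_univ i))
  have hYpos : ∀ y ∈ Y, 0 < y := by
    intro y hy
    rw [hYd, Finset.mem_union, Finset.mem_image, Finset.mem_image] at hy
    rcases hy with ⟨i, _, rfl⟩ | ⟨i, _, rfl⟩
    · exact hw i
    · exact hw' i
  have key : ∀ y ∈ Y, (Finset.univ.filter fun i => w i = y).card =
      (Finset.univ.filter fun i => w' i = y).card := by
    by_contra hcon
    push Not at hcon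
    obtain ⟨B, hB⟩ : ∃ B, B = Y.filter (fun y => (Finset.univ.filter fun i => w i = y).card ≠
      (Finset.univ.filter fun i => w' i = y).card) := ⟨_, rfl⟩
    have hBne : B.Nonempty := by
      obtain ⟨y, hy, hne⟩ := hcon
      exact ⟨y, by rw [hB]; exact Finset.mem_filter.2 ⟨hy, hne⟩⟩
    obtain ⟨x, hx⟩ : ∃ x, x = B.min' hBne := ⟨_, rfl⟩
    have hxB : x ∈ B := by rw [hx]; exact Finset.min'_mem B hBne
    have hxB' := hxB
    rw [hB, Finset.mem_filter] at hxB'
    have hlt : ∀ y ∈ Y, y < x → (Finset.univ.filter fun i => w i = y).card =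
        (Finset.univ.filter fun i => w' i = y).card := by
      intro y hy hyx
      by_contra hne
      have h1 : y ∈ B := by rw [hB]; exact Finset.mem_filter.2 ⟨hy, hne⟩
      have h2 := Finset.min'_le B y h1
      rw [← hx] at h2
      exact absurd hyx (not_lt.2 h2)
    apply hxB'.2
    have e1 := count_eq r r' w w' hw hw' H x (hYpos x hxB'.1)
    rw [split_card w hw Y hY x, split_card w' hw' Y hY' x] at e1
    have e2 : ∑ y ∈ Y.filter (fun y => y < x ∧ OM y x), (Finset.univ.filter fun i => w i = y).card =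
        ∑ y ∈ Y.filter (fun y => y < x ∧ OM y x), (Finset.univ.filter fun i => w' i = y).card := by
      refine Finset.sum_congr rfl fun y hy => ?_
      rw [Finset.mem_filter] at hy
      exact hlt y hy.1 hy.2.1
    rw [e2] at e1
    exact Nat.add_right_cancel e1
  ext y
  constructor
  · rintro ⟨i, rfl⟩
    have h1 := key (w i) (hY i)
    have h2 : 0 < (Finset.univ.filter fun j => w j = w i).card :=
      Finset.card_pos.2 ⟨i, Finset.mem_filter.2 ⟨Finset.mem_univ _, rfl⟩⟩
    rw [h1, Finset.card_pos] at h2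
    obtain ⟨j, hj⟩ := h2
    exact ⟨j, (Finset.mem_filter.1 hj).2⟩
  · rintro ⟨i, rfl⟩
    have h1 := key (w' i) (hY' i)
    have h2 : 0 < (Finset.univ.filter fun j => w' j = w' i).card :=
      Finset.card_pos.2 ⟨i, Finset.mem_filter.2 ⟨Finset.mem_univ _, rfl⟩⟩
    rw [← h1, Finset.card_pos] at h2
    obtain ⟨j, hj⟩ := h2
    exact ⟨j, (Finset.mem_filter.1 hj).2⟩

end Pool.Agent.KACG.H8
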