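import Pool.Agent.KACG.Slopes

/-! Squad KACG, row S_SIM: the eigenvalues are simple. -/

open scoped ComplexConjugate ContDiff

noncomputable section

namespace Pool.Agent.KACG.H8

open Pool.Agent.KACG

theorem tp_deriv {L : ℝ} {u : ℝ → ℂ} (h : TP L u) (s : ℝ) :
    deriv u (s + L) = Complex.I * deriv u s := by
  have h1 : deriv (fun x => u (x + L)) s = deriv u (s + L) := deriv_comp_add_const u L s
  have h2 : (fun x => u (x + L)) = fun x => Complex.I * u x := funext h.2
  rw [← h1, h2]
  have hd : DifferentiableAt ℝ u s := (h.1.differentiable (by simp)).differentiableAt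
  exact deriv_const_mul Complex.I hd

theorem sim (_ : VolStmt) (hU : UniStmt) : SimStmt := by
  intro L V E u v _ hV hu hv hsu hsv hne
  -- the Wronskian
  have hW : ∀ s, HasDerivAt (fun s => u s * deriv v s - deriv u s * v s) 0 s := by
    intro s
    have h1 := ((hsu.1 s).mul (hsv.2 s)).sub ((hsu.2 s).mul (hsv.1 s))
    refine h1.congr_deriv ?_
    ring
  have hc : ∀ a b : ℝ, u a * deriv v a - deriv u a * v a = u b * deriv v b - deriv u b * v b := by
    intro a b
    exact is_const_of_deriv_eq_zero (fun s => (hW s).differentiableAt) (fun s => (hW s).deriv) a b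
  have hL := hc (0 + L) 0
  rw [hu.2 0, hv.2 0, tp_deriv hu 0, tp_deriv hv 0] at hL
  have hI : Complex.I * Complex.I = -1 := Complex.I_mul_I
  have h0 : u 0 * deriv v 0 - deriv u 0 * v 0 = 0 := by
    have h2 : -(u 0 * deriv v 0 - deriv u 0 * v 0) = u 0 * deriv v 0 - deriv u 0 * v 0 := by
      calc -(u 0 * deriv v 0 - deriv u 0 * v 0)
          = (Complex.I * Complex.I) * (u 0 * deriv v 0 - deriv u 0 * v 0) := by rw [hI]; ring
        _ = Complex.I * u 0 * (Complex.I * deriv v 0) -
            Complex.I * deriv u 0 * (Complex.I * v 0) := by ring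
        _ = _ := hL
    exact self_eq_neg.1 h2.symm
  have hne0 : u 0 ≠ 0 ∨ deriv u 0 ≠ 0 := by
    by_contra hcon
    push Not at hcon
    obtain ⟨s, hs⟩ := hne
    apply hs
    rw [hU V hV E u hsu s, hcon.1, hcon.2]
    ring
  have hfin : ∀ a : ℂ, v 0 = a * u 0 → deriv v 0 = a * deriv u 0 → ∀ s, v s = a * u s := by
    intro a h1 h2 s
    rw [hU V hV E v hsv s, hU V hV E u hsu s, h1, h2]
    ring
  rcases hne0 with h | h
  · refine ⟨v 0 / u 0, hfin _ ?_ ?_⟩
    · field_simp
    · field_simp
      linear_combination h0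
  · refine ⟨deriv v 0 / deriv u 0, hfin _ ?_ ?_⟩
    · field_simp
      linear_combination -h0
    · field_simp

end Pool.Agent.KACG.H8
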