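import Pool.Agent.KACG.Slopes

/-! Squad KACG, row S_HOU: trial functions for the oscillator. -/

open scoped ContDiff Topology
open MeasureTheory Polynomial Filter

noncomputable section

namespace Pool.Agent.KACG.H8

open Pool.Agent.KACG

/-! ### The Gaussian functional -/

theorem int_poly {w : ℝ} (hw : 0 < w) (P : ℝ[X]) :
    Integrable fun x : ℝ => P.eval x * Real.exp (-w * x ^ 2) := by
  induction P using Polynomial.induction_on' with
  | add p q hp hq =>
    simp only [eval_add, add_mul]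
    exact hp.add hq
  | monomial n a =>
    have h := integrable_rpow_mul_exp_neg_mul_sq hw (s := (n : ℝ))
      (by have := n.cast_nonneg (α := ℝ); linarith)
    simp only [Real.rpow_natCast] at h
    refine (h.const_mul a).congr (Eventually.of_forall fun x => ?_)
    simp only [eval_monomial]
    ring

/-- the Gaussian functional -/
def JG {w : ℝ} (hw : 0 < w) : ℝ[X] →ₗ[ℝ] ℝ where
  toFun P := ∫ x : ℝ, P.eval x * Real.exp (-w * x ^ 2)
  map_add' P Q := by
    simp only [eval_add, add_mul]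
    exact integral_add (int_poly hw P) (int_poly hw Q)
  map_smul' a P := by
    simp only [eval_smul, smul_eq_mul, RingHom.id_apply, mul_assoc]
    exact integral_const_mul _ _

theorem JG_apply {w : ℝ} (hw : 0 < w) (P : ℝ[X]) :
    JG hw P = ∫ x : ℝ, P.eval x * Real.exp (-w * x ^ 2) := rfl

theorem JG_sq_nonneg {w : ℝ} (hw : 0 < w) (P : ℝ[X]) : 0 ≤ JG hw (P ^ 2) := by
  rw [JG_apply]
  refine integral_nonneg fun x => ?_
  show 0 ≤ (P ^ 2).eval x * Real.exp (-w * x ^ 2)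
  rw [eval_pow]
  positivity

theorem JG_pos {w : ℝ} (hw : 0 < w) {P : ℝ[X]} (hP : P ≠ 0) : 0 < JG hw (P ^ 2) := by
  obtain ⟨x, hx⟩ : ∃ x : ℝ, P.eval x ≠ 0 := by
    by_contra hcon
    push Not at hcon
    apply hP
    apply Polynomial.funext
    intro r
    rw [hcon r, eval_zero]
  rw [JG_apply]
  refine integral_pos_of_integrable_nonneg_nonzero (x := x) (by fun_prop) (int_poly hw _) ?_ ?_
  · intro y
    show 0 ≤ (P ^ 2).eval y * Real.exp (-w * y ^ 2)
    rw [eval_pow]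
    positivity
  · show (P ^ 2).eval x * Real.exp (-w * x ^ 2) ≠ 0
    rw [eval_pow]
    exact mul_ne_zero (pow_ne_zero 2 hx) (Real.exp_pos _).ne'

theorem JG_der {w : ℝ} (hw : 0 < w) (P : ℝ[X]) :
    JG hw (derivative P) = 2 * w * JG hw (X * P) := by
  have h1 : ∀ x : ℝ, HasDerivAt (fun x : ℝ => P.eval x * Real.exp (-w * x ^ 2))
      ((derivative P).eval x * Real.exp (-w * x ^ 2) -
        2 * w * ((X * P).eval x * Real.exp (-w * x ^ 2))) x := by
    intro x
    have h2 : HasDerivAt (fun x : ℝ => Real.exp (-w * x ^ 2))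
        (Real.exp (-w * x ^ 2) * (-w * (2 * x))) x := by
      have h3 : HasDerivAt (fun x : ℝ => -w * x ^ 2) (-w * (2 * x)) x := by
        have := (hasDerivAt_pow 2 x).const_mul (-w)
        simpa using this
      exact h3.exp
    refine ((P.hasDerivAt x).mul h2).congr_deriv ?_
    rw [eval_mul, eval_X]
    ring
  have h2 := integral_eq_zero_of_hasDerivAt_of_integrable h1
    ((int_poly hw _).sub ((int_poly hw _).const_mul _)) (int_poly hw P)
  rw [integral_sub (int_poly hw _) ((int_poly hw _).const_mul _), integral_const_mul] at h2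
  rw [JG_apply, JG_apply]
  linarith

theorem adj_sq {w : ℝ} (hw : 0 < w) (Q : ℝ[X]) :
    JG hw (((2 * w) • (X * Q) - derivative Q) ^ 2) =
      JG hw (derivative Q ^ 2) + 2 * w * JG hw (Q ^ 2) := by
  have h1 : ((2 * w) • (X * Q) - derivative Q) ^ 2 =
      (4 * w ^ 2) • (X * (X * Q ^ 2)) - (4 * w) • (X * (Q * derivative Q)) + derivative Q ^ 2 := by
    have e1 : (C (4 * w ^ 2) : ℝ[X]) = C 2 * C 2 * (C w * C w) := by
      rw [← C_mul, ← C_mul, ← C_mul]
      congr 1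
      ring
    have e2 : (C (4 * w) : ℝ[X]) = C 2 * C 2 * C w := by
      rw [← C_mul, ← C_mul]
      congr 1
      ring
    have e3 : (C 2 : ℝ[X]) = 2 := map_ofNat C 2
    simp only [smul_eq_C_mul, e1, e2, C_mul, e3]
    ring
  have h2 := JG_der hw (X * Q ^ 2)
  have h3 : derivative (X * Q ^ 2) = Q ^ 2 + (2 : ℝ) • (X * (Q * derivative Q)) := by
    have e3 : (C 2 : ℝ[X]) = 2 := map_ofNat C 2
    rw [derivative_mul, derivative_X, derivative_pow, smul_eq_C_mul]
    simp only [Nat.cast_ofNat, e3]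
    ring
  rw [h3, map_add, map_smul, smul_eq_mul] at h2
  rw [h1, map_add, map_sub, map_smul, map_smul, smul_eq_mul, smul_eq_mul]
  linear_combination -(2 * w) * h2

theorem bern {w : ℝ} (hw : 0 < w) (m : ℕ) : ∀ P : ℝ[X], P.natDegree ≤ m →
    JG hw (derivative P ^ 2) ≤ 2 * m * w * JG hw (P ^ 2) := by
  induction m with
  | zero =>
    intro P hP
    have h0 := eq_C_of_natDegree_eq_zero (Nat.le_zero.1 hP)
    rw [h0, derivative_C]
    simp
  | succ m ih =>
    intro P hP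
    have hQ : (derivative P).natDegree ≤ m := by
      have := natDegree_derivative_le P
      omega
    have h1 := ih (derivative P) hQ
    have h2 := adj_sq hw (derivative P)
    obtain ⟨Q, hQd⟩ : ∃ Q, Q = derivative P := ⟨_, rfl⟩
    obtain ⟨S, hS⟩ : ∃ S, S = (2 * w) • (X * Q) - derivative Q := ⟨_, rfl⟩
    rw [← hQd] at h1 h2 ⊢
    rw [← hS] at h2
    -- `⟨P, S⟩ = ⟨P', P'⟩`
    have h3 : JG hw (P * S) = JG hw (Q ^ 2) := by
      have e1 := JG_der hw (P * Q)
      rw [derivative_mul, ← hQd, map_add] at e1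
      have e2 : P * S = (2 * w) • (X * (P * Q)) - P * derivative Q := by
        rw [hS, smul_eq_C_mul, smul_eq_C_mul]
        ring
      rw [e2, map_sub, map_smul, smul_eq_mul, sq]
      linarith
    obtain ⟨lm, hlm⟩ : ∃ lm : ℝ, lm = 2 * ((m : ℝ) + 1) * w := ⟨_, rfl⟩
    have hlm0 : 0 < lm := by rw [hlm]; positivity
    have h4 : JG hw ((lm • P - S) ^ 2) = lm ^ 2 * JG hw (P ^ 2) - 2 * lm * JG hw (P * S) +
        JG hw (S ^ 2) := by
      have e1 : (lm • P - S) ^ 2 = (lm ^ 2) • (P ^ 2) - (2 * lm) • (P * S) + S ^ 2 := by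
        have e3 : (C 2 : ℝ[X]) = 2 := map_ofNat C 2
        simp only [smul_eq_C_mul, C_pow, C_mul, e3]
        ring
      rw [e1, map_add, map_sub, map_smul, map_smul, smul_eq_mul, smul_eq_mul]
    have h5 := JG_sq_nonneg hw (lm • P - S)
    rw [h4, h3, h2] at h5
    have h6 : 0 ≤ lm * (lm * JG hw (P ^ 2) - JG hw (Q ^ 2)) := by
      have e1 : JG hw (derivative Q ^ 2) + 2 * w * JG hw (Q ^ 2) ≤ lm * JG hw (Q ^ 2) := by
        rw [hlm]
        linarith
      linarith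
    have h7 := nonneg_of_mul_nonneg_right h6 hlm0
    push_cast
    rw [← hlm]
    linarith

/-! ### The energy of `P gs` -/

theorem gs_sq (w x : ℝ) : gs w x ^ 2 = Real.exp (-w * x ^ 2) := by
  unfold gs
  rw [← Real.exp_nat_mul]
  congr 1
  push_cast
  ring

theorem gs_der (w x : ℝ) : HasDerivAt (gs w) (gs w x * (-(w * x))) x := by
  have h3 : HasDerivAt (fun x : ℝ => -(w * x ^ 2 / 2)) (-(w * x)) x := by
    have := (((hasDerivAt_pow 2 x).const_mul w).div_const 2).neg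
    refine this.congr_deriv ?_
    push_cast
    ring
  exact h3.exp

theorem gs_smooth (w : ℝ) : ContDiff ℝ ∞ (gs w) := by
  unfold gs
  fun_prop

/-- `P gs` -/
def pg (w : ℝ) (P : ℝ[X]) (x : ℝ) : ℝ := P.eval x * gs w x

/-- its derivative -/
def pg' (w : ℝ) (P : ℝ[X]) (x : ℝ) : ℝ := ((derivative P).eval x - w * x * P.eval x) * gs w x

theorem pg_der (w : ℝ) (P : ℝ[X]) (x : ℝ) : HasDerivAt (pg w P) (pg' w P x) x := by
  refine ((P.hasDerivAt x).mul (gs_der w x)).congr_deriv ?_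
  unfold pg'
  ring

theorem pg_sq_int {w : ℝ} (hw : 0 < w) (P : ℝ[X]) : Integrable fun x => pg w P x ^ 2 := by
  refine (int_poly hw (P ^ 2)).congr (Eventually.of_forall fun x => ?_)
  show (P ^ 2).eval x * Real.exp (-w * x ^ 2) = pg w P x ^ 2
  unfold pg
  rw [mul_pow, gs_sq, eval_pow]

theorem pg_xsq_int {w : ℝ} (hw : 0 < w) (P : ℝ[X]) : Integrable fun x => x ^ 2 * pg w P x ^ 2 := by
  refine (int_poly hw (X ^ 2 * P ^ 2)).congr (Eventually.of_forall fun x => ?_)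
  show (X ^ 2 * P ^ 2).eval x * Real.exp (-w * x ^ 2) = x ^ 2 * pg w P x ^ 2
  unfold pg
  rw [mul_pow, gs_sq, eval_mul, eval_pow, eval_pow, eval_X]
  ring

theorem pg'_sq_int {w : ℝ} (hw : 0 < w) (P : ℝ[X]) : Integrable fun x => pg' w P x ^ 2 := by
  refine (int_poly hw ((derivative P - C w * X * P) ^ 2)).congr (Eventually.of_forall fun x => ?_)
  show ((derivative P - C w * X * P) ^ 2).eval x * Real.exp (-w * x ^ 2) = pg' w P x ^ 2
  unfold pg'
  rw [mul_pow, gs_sq, eval_pow, eval_sub, eval_mul, eval_mul, eval_C, eval_X]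

theorem pg_mass {w : ℝ} (hw : 0 < w) (P : ℝ[X]) : ∫ x, pg w P x ^ 2 = JG hw (P ^ 2) := by
  rw [JG_apply]
  refine integral_congr_ae (Eventually.of_forall fun x => ?_)
  show pg w P x ^ 2 = (P ^ 2).eval x * Real.exp (-w * x ^ 2)
  unfold pg
  rw [mul_pow, gs_sq, eval_pow]

theorem pg_enr {w : ℝ} (hw : 0 < w) (P : ℝ[X]) :
    (∫ x, pg' w P x ^ 2) + w ^ 2 * ∫ x, x ^ 2 * pg w P x ^ 2 =
      JG hw (derivative P ^ 2) + w * JG hw (P ^ 2) := by
  have e1 : ∫ x, pg' w P x ^ 2 = JG hw ((derivative P - w • (X * P)) ^ 2) := by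
    rw [JG_apply]
    refine integral_congr_ae (Eventually.of_forall fun x => ?_)
    show pg' w P x ^ 2 = ((derivative P - w • (X * P)) ^ 2).eval x * Real.exp (-w * x ^ 2)
    unfold pg'
    rw [mul_pow, gs_sq, eval_pow, eval_sub, eval_smul, eval_mul, eval_X, smul_eq_mul]
    ring
  have e2 : ∫ x, x ^ 2 * pg w P x ^ 2 = JG hw (X * (X * P ^ 2)) := by
    rw [JG_apply]
    refine integral_congr_ae (Eventually.of_forall fun x => ?_)
    show x ^ 2 * pg w P x ^ 2 = (X * (X * P ^ 2)).eval x * Real.exp (-w * x ^ 2)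
    unfold pg
    rw [mul_pow, gs_sq, eval_mul, eval_mul, eval_pow, eval_X]
    ring
  have h1 : (derivative P - w • (X * P)) ^ 2 = derivative P ^ 2 - (2 * w) • (X * (P * derivative P)) +
      (w ^ 2) • (X * (X * P ^ 2)) := by
    have e3 : (C 2 : ℝ[X]) = 2 := map_ofNat C 2
    simp only [smul_eq_C_mul, C_pow, C_mul, e3]
    ring
  have h2 := JG_der hw (X * P ^ 2)
  have h3 : derivative (X * P ^ 2) = P ^ 2 + (2 : ℝ) • (X * (P * derivative P)) := by
    have e3 : (C 2 : ℝ[X]) = 2 := map_ofNat C 2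
    rw [derivative_mul, derivative_X, derivative_pow, smul_eq_C_mul]
    simp only [Nat.cast_ofNat, e3]
    ring
  rw [h3, map_add, map_smul, smul_eq_mul] at h2
  rw [e1, e2, h1, map_add, map_sub, map_smul, map_smul, smul_eq_mul, smul_eq_mul]
  linear_combination -w * h2

theorem pg_bound {w : ℝ} (hw : 0 < w) (m : ℕ) {P : ℝ[X]} (hP : P.natDegree ≤ m) :
    (∫ x, pg' w P x ^ 2) + w ^ 2 * ∫ x, x ^ 2 * pg w P x ^ 2 ≤
      (2 * m + 1) * w * ∫ x, pg w P x ^ 2 := by
  rw [pg_enr hw, pg_mass hw]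
  have := bern hw m P hP
  linarith

/-! ### Cutoff -/

/-- the real energy -/
def hr (w : ℝ) (F : ℝ → ℝ) : ℝ := ∫ x, (deriv F x ^ 2 + w ^ 2 * x ^ 2 * F x ^ 2)

/-- the cutoff -/
def th : ContDiffBump (0 : ℝ) := ⟨1, 2, one_pos, one_lt_two⟩

/-- the scaled cutoff -/
def tr (R x : ℝ) : ℝ := th (x / R)

theorem tr_smooth (R : ℝ) : ContDiff ℝ ∞ (tr R) := by
  have h : ContDiff ℝ ∞ (th : ℝ → ℝ) := th.contDiff
  exact h.comp (contDiff_id.div_const R)

theorem tr_nonneg (R x : ℝ) : 0 ≤ tr R x := th.nonneg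

theorem tr_le_one (R x : ℝ) : tr R x ≤ 1 := th.le_one

theorem tr_one {R x : ℝ} (hR : 0 < R) (hx : |x| ≤ R) : tr R x = 1 := by
  apply th.one_of_mem_closedBall
  rw [mem_closedBall_zero_iff, Real.norm_eq_abs, abs_div, abs_of_pos hR]
  show |x| / R ≤ 1
  rw [div_le_one hR]
  exact hx

theorem tr_zero {R x : ℝ} (hR : 0 < R) (hx : 2 * R ≤ |x|) : tr R x = 0 := by
  apply th.zero_of_le_dist
  rw [dist_zero_right, Real.norm_eq_abs, abs_div, abs_of_pos hR]
  show 2 ≤ |x| / R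
  rw [le_div_iff₀ hR]
  exact hx

theorem tr_supp {R : ℝ} (hR : 0 < R) : HasCompactSupport (tr R) := by
  refine HasCompactSupport.intro (isCompact_closedBall (0 : ℝ) (2 * R)) ?_
  intro x hx
  rw [mem_closedBall_zero_iff, Real.norm_eq_abs, not_le] at hx
  exact tr_zero hR hx.le

theorem tr_der : ∃ K : ℝ, 0 ≤ K ∧ ∀ R : ℝ, 0 < R → ∀ x, ∃ d, |d| ≤ K / R ∧ HasDerivAt (tr R) d x := by
  have h : ContDiff ℝ ∞ (th : ℝ → ℝ) := th.contDiff
  have hc : HasCompactSupport (deriv (th : ℝ → ℝ)) := th.hasCompactSupport.deriv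
  have hd : Continuous (deriv (th : ℝ → ℝ)) := h.continuous_deriv (by simp)
  obtain ⟨K, hK⟩ := hc.exists_bound_of_continuous hd
  refine ⟨K, (norm_nonneg _).trans (hK 0), fun R hR x => ⟨deriv (th : ℝ → ℝ) (x / R) * (1 / R), ?_, ?_⟩⟩
  · rw [abs_mul, abs_of_pos (by positivity : 0 < 1 / R), mul_one_div]
    have := hK (x / R)
    rw [Real.norm_eq_abs] at this
    gcongr
  · have h1 : HasDerivAt (th : ℝ → ℝ) (deriv (th : ℝ → ℝ) (x / R)) (x / R) :=
      (h.differentiable (by simp)).differentiableAt.hasDerivAt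
    have h2 : HasDerivAt (fun x : ℝ => x / R) (1 / R) x := (hasDerivAt_id x).div_const R
    exact h1.comp x h2

/-- the trial function -/
def cf (w : ℝ) (P : ℝ[X]) (R x : ℝ) : ℝ := pg w P x * tr R x

theorem pg_smooth (w : ℝ) (P : ℝ[X]) : ContDiff ℝ ∞ (pg w P) := by
  unfold pg
  have h : ContDiff ℝ ∞ fun x : ℝ => P.eval x := by
    have := Polynomial.contDiff_aeval (𝕜 := ℝ) P ∞
    simpa using this
  exact h.mul (gs_smooth w)

theorem cf_smooth (w : ℝ) (P : ℝ[X]) (R : ℝ) : ContDiff ℝ ∞ (cf w P R) :=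
  (pg_smooth w P).mul (tr_smooth R)

theorem cf_supp (w : ℝ) (P : ℝ[X]) {R : ℝ} (hR : 0 < R) : HasCompactSupport (cf w P R) :=
  (tr_supp hR).mul_left

theorem young {ε : ℝ} (hε : 0 < ε) (a b : ℝ) :
    (a + b) ^ 2 ≤ (1 + ε) * a ^ 2 + (1 + 1 / ε) * b ^ 2 := by
  have h1 : (1 + ε) * a ^ 2 + (1 + 1 / ε) * b ^ 2 - (a + b) ^ 2 = (ε * a - b) ^ 2 / ε := by
    field_simp
    ring
  have h2 : 0 ≤ (ε * a - b) ^ 2 / ε := by positivity
  linarith

theorem cut_enr {w : ℝ} (hw : 0 < w) {K : ℝ} (hK0 : 0 ≤ K)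
    (hK : ∀ R : ℝ, 0 < R → ∀ x, ∃ d, |d| ≤ K / R ∧ HasDerivAt (tr R) d x) (m : ℕ) {P : ℝ[X]}
    (hP : P.natDegree ≤ m) {R ε : ℝ} (hR : 0 < R) (hε : 0 < ε) :
    hr w (cf w P R) ≤ ((1 + ε) * ((2 * m + 1) * w) + (1 + 1 / ε) * K ^ 2 / R ^ 2) *
      ∫ x, pg w P x ^ 2 := by
  have hi : Integrable fun x => (1 + ε) * pg' w P x ^ 2 + (1 + ε) * (w ^ 2 * (x ^ 2 * pg w P x ^ 2)) +
      (1 + 1 / ε) * K ^ 2 / R ^ 2 * pg w P x ^ 2 :=
    (((pg'_sq_int hw P).const_mul _).add (((pg_xsq_int hw P).const_mul _).const_mul _)).add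
      ((pg_sq_int hw P).const_mul _)
  have h1 : hr w (cf w P R) ≤ ∫ x, ((1 + ε) * pg' w P x ^ 2 +
      (1 + ε) * (w ^ 2 * (x ^ 2 * pg w P x ^ 2)) + (1 + 1 / ε) * K ^ 2 / R ^ 2 * pg w P x ^ 2) := by
    unfold hr
    refine integral_mono_of_nonneg (Eventually.of_forall fun x => ?_) hi
      (Eventually.of_forall fun x => ?_)
    · show 0 ≤ deriv (cf w P R) x ^ 2 + w ^ 2 * x ^ 2 * cf w P R x ^ 2
      positivity
    · show deriv (cf w P R) x ^ 2 + w ^ 2 * x ^ 2 * cf w P R x ^ 2 ≤ (1 + ε) * pg' w P x ^ 2 +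
        (1 + ε) * (w ^ 2 * (x ^ 2 * pg w P x ^ 2)) + (1 + 1 / ε) * K ^ 2 / R ^ 2 * pg w P x ^ 2
      obtain ⟨d, hd, hd'⟩ := hK R hR x
      have hder : HasDerivAt (cf w P R) (pg' w P x * tr R x + pg w P x * d) x :=
        (pg_der w P x).mul hd'
      rw [hder.deriv]
      have ht0 := tr_nonneg R x
      have ht1 := tr_le_one R x
      have ht2 : tr R x ^ 2 ≤ 1 := pow_le_one₀ ht0 ht1
      have e1 := young hε (pg' w P x * tr R x) (pg w P x * d)
      have e2 : (pg' w P x * tr R x) ^ 2 ≤ pg' w P x ^ 2 := by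
        rw [mul_pow]
        exact mul_le_of_le_one_right (sq_nonneg _) ht2
      have e3 : (pg w P x * d) ^ 2 ≤ K ^ 2 / R ^ 2 * pg w P x ^ 2 := by
        rw [mul_pow, mul_comm]
        have h5 : d ^ 2 ≤ K ^ 2 / R ^ 2 := by
          rw [← div_pow, ← sq_abs]
          exact pow_le_pow_left₀ (abs_nonneg d) hd 2
        exact mul_le_mul_of_nonneg_right h5 (sq_nonneg _)
      have e4 : w ^ 2 * x ^ 2 * cf w P R x ^ 2 ≤ (1 + ε) * (w ^ 2 * (x ^ 2 * pg w P x ^ 2)) := by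
        unfold cf
        have h5 : (pg w P x * tr R x) ^ 2 ≤ pg w P x ^ 2 := by
          rw [mul_pow]
          exact mul_le_of_le_one_right (sq_nonneg _) ht2
        have h6 : w ^ 2 * x ^ 2 * (pg w P x * tr R x) ^ 2 ≤ w ^ 2 * (x ^ 2 * pg w P x ^ 2) := by
          rw [mul_assoc]
          gcongr
        have h7 : 0 ≤ w ^ 2 * (x ^ 2 * pg w P x ^ 2) := by positivity
        nlinarith
      have e5 : (1 + 1 / ε) * (pg w P x * d) ^ 2 ≤ (1 + 1 / ε) * K ^ 2 / R ^ 2 * pg w P x ^ 2 := by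
        have h5 : (1 + 1 / ε) * K ^ 2 / R ^ 2 * pg w P x ^ 2 =
          (1 + 1 / ε) * (K ^ 2 / R ^ 2 * pg w P x ^ 2) := by ring
        rw [h5]
        have : 0 < 1 + 1 / ε := by positivity
        exact mul_le_mul_of_nonneg_left e3 this.le
      have e6 : (1 + ε) * (pg' w P x * tr R x) ^ 2 ≤ (1 + ε) * pg' w P x ^ 2 :=
        mul_le_mul_of_nonneg_left e2 (by positivity)
      linarith
  refine h1.trans ?_
  have hi1 : Integrable fun x => (1 + ε) * pg' w P x ^ 2 +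
      (1 + ε) * (w ^ 2 * (x ^ 2 * pg w P x ^ 2)) :=
    ((pg'_sq_int hw P).const_mul _).add (((pg_xsq_int hw P).const_mul _).const_mul _)
  rw [integral_add hi1 ((pg_sq_int hw P).const_mul _),
    integral_add ((pg'_sq_int hw P).const_mul _) (((pg_xsq_int hw P).const_mul _).const_mul _),
    integral_const_mul, integral_const_mul, integral_const_mul, integral_const_mul]
  have h2 := mul_le_mul_of_nonneg_left (pg_bound hw m hP) (by positivity : (0 : ℝ) ≤ 1 + ε)
  linarith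

theorem cut_mass {w : ℝ} (hw : 0 < w) (m : ℕ) {P : ℝ[X]}
    (hP : P.natDegree ≤ m) {R : ℝ} (hR : 0 < R) :
    (1 - (2 * m + 1) * w / (w ^ 2 * R ^ 2)) * (∫ x, pg w P x ^ 2) ≤ ∫ x, cf w P R x ^ 2 := by
  have hi : Integrable fun x => cf w P R x ^ 2 := by
    refine Continuous.integrable_of_hasCompactSupport ((cf_smooth w P R).continuous.pow 2) ?_
    exact (cf_supp w P hR).comp_left (g := fun x => x ^ 2) (by simp)
  have h1 : (∫ x, (pg w P x ^ 2 - 1 / R ^ 2 * (x ^ 2 * pg w P x ^ 2))) ≤ ∫ x, cf w P R x ^ 2 := by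
    refine integral_mono ((pg_sq_int hw P).sub ((pg_xsq_int hw P).const_mul _)) hi fun x => ?_
    show pg w P x ^ 2 - 1 / R ^ 2 * (x ^ 2 * pg w P x ^ 2) ≤ cf w P R x ^ 2
    rcases le_total |x| R with h | h
    · unfold cf
      rw [tr_one hR h, mul_one]
      have : 0 ≤ 1 / R ^ 2 * (x ^ 2 * pg w P x ^ 2) := by positivity
      linarith
    · have h2 : R ^ 2 ≤ x ^ 2 := by
        rw [← sq_abs x]
        exact pow_le_pow_left₀ hR.le h 2
      have h3 : pg w P x ^ 2 ≤ 1 / R ^ 2 * (x ^ 2 * pg w P x ^ 2) := by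
        rw [one_div, ← div_eq_inv_mul, le_div_iff₀ (by positivity)]
        have := sq_nonneg (pg w P x)
        nlinarith
      have h4 : 0 ≤ cf w P R x ^ 2 := sq_nonneg _
      linarith
  rw [integral_sub (pg_sq_int hw P) ((pg_xsq_int hw P).const_mul _), integral_const_mul] at h1
  have h2 := pg_bound hw m hP
  have h3 : 0 ≤ ∫ x, pg' w P x ^ 2 := integral_nonneg fun x => sq_nonneg _
  have h4 : w ^ 2 * (∫ x, x ^ 2 * pg w P x ^ 2) ≤ (2 * m + 1) * w * ∫ x, pg w P x ^ 2 := by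
    linarith
  have h5 : 1 / R ^ 2 * (∫ x, x ^ 2 * pg w P x ^ 2) ≤
      (2 * m + 1) * w / (w ^ 2 * R ^ 2) * ∫ x, pg w P x ^ 2 := by
    have e1 : 1 / R ^ 2 * (∫ x, x ^ 2 * pg w P x ^ 2) =
        w ^ 2 * (∫ x, x ^ 2 * pg w P x ^ 2) / (w ^ 2 * R ^ 2) := by
      field_simp
    have e2 : (2 * m + 1) * w / (w ^ 2 * R ^ 2) * ∫ x, pg w P x ^ 2 =
        (2 * m + 1) * w * (∫ x, pg w P x ^ 2) / (w ^ 2 * R ^ 2) := by ring
    rw [e1, e2]
    gcongr
  linarith

/-! ### The real statement -/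

/-- the polynomial with the coefficients `a` -/
def pol {n : ℕ} (a : Fin n → ℝ) : ℝ[X] := ∑ j, C (a j) * X ^ (j : ℕ)

theorem pol_deg {m : ℕ} (a : Fin (m + 1) → ℝ) : (pol a).natDegree ≤ m := by
  unfold pol
  refine natDegree_sum_le_of_forall_le _ _ fun j _ => ?_
  refine (natDegree_C_mul_X_pow_le _ _).trans ?_
  have := j.2
  omega

theorem pol_ne {n : ℕ} {a : Fin n → ℝ} (ha : a ≠ 0) : pol a ≠ 0 := by
  intro h
  apply ha
  funext i
  have h1 : (pol a).coeff i = a i := by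
    unfold pol
    rw [finsetSum_coeff, Finset.sum_eq_single i]
    · rw [coeff_C_mul, coeff_X_pow_self, mul_one]
    · intro j _ hji
      rw [coeff_C_mul, coeff_X_pow, if_neg, mul_zero]
      intro h2
      exact hji (Fin.ext h2.symm)
    · intro h2
      exact absurd (Finset.mem_univ i) h2
  rw [← h1, h, coeff_zero]
  rfl

/-- the basis functions -/
def bf (w R : ℝ) {n : ℕ} (j : Fin n) (x : ℝ) : ℝ := x ^ (j : ℕ) * gs w x * tr R x

theorem bf_smooth (w R : ℝ) {n : ℕ} (j : Fin n) : ContDiff ℝ ∞ (bf w R j) := by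
  unfold bf
  exact ((contDiff_id.pow _).mul (gs_smooth w)).mul (tr_smooth R)

theorem bf_supp (w : ℝ) {R : ℝ} (hR : 0 < R) {n : ℕ} (j : Fin n) : HasCompactSupport (bf w R j) :=
  (tr_supp hR).mul_left

theorem sum_bf (w R : ℝ) {n : ℕ} (a : Fin n → ℝ) (x : ℝ) :
    ∑ j, a j * bf w R j x = cf w (pol a) R x := by
  unfold cf pg pol bf
  rw [eval_finsetSum, Finset.sum_mul, Finset.sum_mul]
  refine Finset.sum_congr rfl fun j _ => ?_
  rw [eval_mul, eval_C, eval_pow, eval_X]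
  ring

theorem real_hou {w e : ℝ} {m : ℕ} (hw : 0 < w) (he : (2 * (m : ℝ) + 1) * w < e) :
    ∃ R : ℝ, 0 < R ∧ ∀ a : Fin (m + 1) → ℝ,
      hr w (cf w (pol a) R) ≤ e * ∫ x, cf w (pol a) R x ^ 2 ∧
      (a ≠ 0 → hr w (cf w (pol a) R) < e * ∫ x, cf w (pol a) R x ^ 2) := by
  obtain ⟨K, hK0, hK⟩ := tr_der
  obtain ⟨lm, hlm⟩ : ∃ lm : ℝ, lm = (2 * (m : ℝ) + 1) * w := ⟨_, rfl⟩
  have hlm0 : 0 < lm := by rw [hlm]; positivity
  rw [← hlm] at he
  have he0 : 0 < e := hlm0.trans he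
  obtain ⟨ε, hε⟩ : ∃ ε : ℝ, ε = (e - lm) / (4 * lm) := ⟨_, rfl⟩
  have hel : 0 < e - lm := by linarith
  have hε0 : 0 < ε := by rw [hε]; positivity
  have hεlm : ε * lm = (e - lm) / 4 := by
    rw [hε]
    field_simp
  obtain ⟨A, hA⟩ : ∃ A : ℝ, A = (1 + 1 / ε) * K ^ 2 + e * lm / w ^ 2 := ⟨_, rfl⟩
  have hA1 : 0 ≤ (1 + 1 / ε) * K ^ 2 := by positivity
  have hA2 : 0 ≤ e * lm / w ^ 2 := by positivity
  have hA0 : 0 ≤ A := by rw [hA]; positivity
  obtain ⟨R, hR⟩ : ∃ R : ℝ, R = Real.sqrt (4 * A / (e - lm)) + 1 := ⟨_, rfl⟩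
  have hR0 : 0 < R := by rw [hR]; positivity
  have hR2 : 4 * A / (e - lm) < R ^ 2 := by
    have h1 : 0 ≤ 4 * A / (e - lm) := by positivity
    have h2 := Real.sq_sqrt h1
    have h3 := Real.sqrt_nonneg (4 * A / (e - lm))
    rw [hR]
    nlinarith
  have hAR : A / R ^ 2 < (e - lm) / 4 := by
    rw [div_lt_iff₀ (by positivity)]
    rw [div_lt_iff₀ hel] at hR2
    linarith
  refine ⟨R, hR0, fun a => ?_⟩
  have hd := pol_deg a
  have h1 := cut_enr hw hK0 hK m hd hR0 hε0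
  have h2 := cut_mass hw m hd hR0
  obtain ⟨M, hM⟩ : ∃ M, M = ∫ x, pg w (pol a) x ^ 2 := ⟨_, rfl⟩
  have hM0 : 0 ≤ M := by rw [hM]; exact integral_nonneg fun x => sq_nonneg _
  rw [← hM, ← hlm] at h1 h2
  have h3 := mul_le_mul_of_nonneg_left h2 he0.le
  have c1 : (1 + 1 / ε) * K ^ 2 / R ^ 2 ≤ A / R ^ 2 := by
    rw [hA]
    gcongr
    linarith
  have c2 : e * (lm / (w ^ 2 * R ^ 2)) ≤ A / R ^ 2 := by
    have e1 : e * (lm / (w ^ 2 * R ^ 2)) = e * lm / w ^ 2 / R ^ 2 := by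
      field_simp
    rw [e1, hA]
    gcongr
    linarith
  obtain ⟨x1, hx1⟩ : ∃ x, x = (1 + ε) * lm + (1 + 1 / ε) * K ^ 2 / R ^ 2 := ⟨_, rfl⟩
  obtain ⟨x2, hx2⟩ : ∃ x, x = e * (1 - lm / (w ^ 2 * R ^ 2)) := ⟨_, rfl⟩
  have hlt : x1 < x2 := by
    rw [hx1, hx2]
    have e1 : (1 + ε) * lm = lm + (e - lm) / 4 := by rw [add_mul, one_mul, hεlm]
    have e2 : e * (1 - lm / (w ^ 2 * R ^ 2)) = e - e * (lm / (w ^ 2 * R ^ 2)) := by ring
    rw [e1, e2]
    linarith
  have h4 : hr w (cf w (pol a) R) ≤ x1 * M := by rw [hx1]; exact h1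
  have h5 : x2 * M ≤ e * ∫ x, cf w (pol a) R x ^ 2 := by
    rw [hx2]
    refine le_trans (le_of_eq ?_) h3
    ring
  refine ⟨?_, fun ha => ?_⟩
  · exact h4.trans ((mul_le_mul_of_nonneg_right hlt.le hM0).trans h5)
  · have hMp : 0 < M := by
      rw [hM, pg_mass hw]
      exact JG_pos hw (pol_ne ha)
    exact lt_of_le_of_lt h4 (lt_of_lt_of_le (mul_lt_mul_of_pos_right hlt hMp) h5)

/-! ### The complex statement -/

theorem hr_int (w : ℝ) {F : ℝ → ℝ} (h : ContDiff ℝ ∞ F) (hs : HasCompactSupport F) :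
    Integrable fun x => deriv F x ^ 2 + w ^ 2 * x ^ 2 * F x ^ 2 := by
  have hd : Continuous (deriv F) := h.continuous_deriv (by simp)
  have h1 : HasCompactSupport fun x => deriv F x ^ 2 :=
    hs.deriv.comp_left (g := fun x => x ^ 2) (by simp)
  have h2 : HasCompactSupport fun x => F x ^ 2 := hs.comp_left (g := fun x => x ^ 2) (by simp)
  refine Integrable.add ?_ ?_
  · exact Continuous.integrable_of_hasCompactSupport (hd.pow 2) h1
  · refine Continuous.integrable_of_hasCompactSupport ?_ ?_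
    · have := h.continuous
      fun_prop
    · exact h2.mul_left

theorem sq_int' {F : ℝ → ℝ} (h : ContDiff ℝ ∞ F) (hs : HasCompactSupport F) :
    Integrable fun x => F x ^ 2 := by
  refine Continuous.integrable_of_hasCompactSupport (h.continuous.pow 2) ?_
  exact hs.comp_left (g := fun x => x ^ 2) (by simp)

theorem norm_sq_add (a b : ℝ) : ‖(a : ℂ) + (b : ℂ) * Complex.I‖ ^ 2 = a ^ 2 + b ^ 2 := by
  rw [← Complex.normSq_eq_norm_sq, Complex.normSq_add_mul_I]

theorem hou : HouStmt := by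
  intro w e n hw he
  rcases Nat.eq_zero_or_pos n with hn | hn
  · subst hn
    refine ⟨fun j => j.elim0, fun j => j.elim0, fun c hc => ?_⟩
    exact absurd (Subsingleton.elim c 0) hc
  · obtain ⟨m, rfl⟩ : ∃ m, n = m + 1 := ⟨n - 1, by omega⟩
    have he' : (2 * (m : ℝ) + 1) * w < e := by
      push_cast at he
      have : (2 * (m : ℝ) + 1) = 2 * ((m : ℝ) + 1) - 1 := by ring
      rw [this]
      exact he
    obtain ⟨R, hR, H⟩ := real_hou hw he'
    refine ⟨fun j => bf w R j, fun j => ⟨bf_smooth w R j, bf_supp w hR j⟩, fun c hc => ?_⟩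
    obtain ⟨a, ha⟩ : ∃ a : Fin (m + 1) → ℝ, a = fun j => (c j).re := ⟨_, rfl⟩
    obtain ⟨b, hb⟩ : ∃ b : Fin (m + 1) → ℝ, b = fun j => (c j).im := ⟨_, rfl⟩
    have hF : (fun x : ℝ => ∑ j, c j * (bf w R j x : ℂ)) =
        fun x : ℝ => (cf w (pol a) R x : ℂ) + (cf w (pol b) R x : ℂ) * Complex.I := by
      funext x
      rw [← sum_bf, ← sum_bf]
      push_cast
      rw [Finset.sum_mul, ← Finset.sum_add_distrib]
      refine Finset.sum_congr rfl fun j _ => ?_
      rw [ha, hb]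
      conv_lhs => rw [← Complex.re_add_im (c j)]
      ring
    have hFx : ∀ x : ℝ, ∑ j, c j * (bf w R j x : ℂ) =
        (cf w (pol a) R x : ℂ) + (cf w (pol b) R x : ℂ) * Complex.I := fun x => congrFun hF x
    have hsa := cf_smooth w (pol a) R
    have hsb := cf_smooth w (pol b) R
    have hca := cf_supp w (pol a) hR
    have hcb := cf_supp w (pol b) hR
    have hder : ∀ x : ℝ, deriv (fun x : ℝ => (cf w (pol a) R x : ℂ) +
        (cf w (pol b) R x : ℂ) * Complex.I) x =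
        ((deriv (cf w (pol a) R) x : ℝ) : ℂ) + ((deriv (cf w (pol b) R) x : ℝ) : ℂ) * Complex.I := by
      intro x
      have h1 : HasDerivAt (cf w (pol a) R) (deriv (cf w (pol a) R) x) x :=
        (hsa.differentiable (by simp)).differentiableAt.hasDerivAt
      have h2 : HasDerivAt (cf w (pol b) R) (deriv (cf w (pol b) R) x) x :=
        (hsb.differentiable (by simp)).differentiableAt.hasDerivAt
      exact (h1.ofReal_comp.add (h2.ofReal_comp.mul_const Complex.I)).deriv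
    have hho : ho w (fun x : ℝ => ∑ j, c j * (bf w R j x : ℂ)) =
        hr w (cf w (pol a) R) + hr w (cf w (pol b) R) := by
      rw [hF]
      unfold ho hr
      rw [← integral_add (hr_int w hsa hca) (hr_int w hsb hcb)]
      refine integral_congr_ae (Eventually.of_forall fun x => ?_)
      show ‖deriv (fun x : ℝ => (cf w (pol a) R x : ℂ) + (cf w (pol b) R x : ℂ) * Complex.I) x‖ ^ 2 +
        w ^ 2 * x ^ 2 * ‖(cf w (pol a) R x : ℂ) + (cf w (pol b) R x : ℂ) * Complex.I‖ ^ 2 =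
        (deriv (cf w (pol a) R) x ^ 2 + w ^ 2 * x ^ 2 * cf w (pol a) R x ^ 2) +
        (deriv (cf w (pol b) R) x ^ 2 + w ^ 2 * x ^ 2 * cf w (pol b) R x ^ 2)
      rw [hder x, norm_sq_add, norm_sq_add]
      ring
    have hm : (∫ x : ℝ, ‖∑ j, c j * (bf w R j x : ℂ)‖ ^ 2) =
        (∫ x, cf w (pol a) R x ^ 2) + ∫ x, cf w (pol b) R x ^ 2 := by
      rw [← integral_add (sq_int' hsa hca) (sq_int' hsb hcb)]
      refine integral_congr_ae (Eventually.of_forall fun x => ?_)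
      show ‖∑ j, c j * (bf w R j x : ℂ)‖ ^ 2 = cf w (pol a) R x ^ 2 + cf w (pol b) R x ^ 2
      rw [hFx x, norm_sq_add]
    rw [hho, hm, mul_add]
    have hab : a ≠ 0 ∨ b ≠ 0 := by
      by_contra hcon
      push Not at hcon
      apply hc
      funext j
      have h1 := congrFun hcon.1 j
      have h2 := congrFun hcon.2 j
      rw [ha] at h1
      rw [hb] at h2
      exact Complex.ext h1 h2
    rcases hab with h | h
    · exact add_lt_add_of_lt_of_le ((H a).2 h) (H b).1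
    · exact add_lt_add_of_le_of_lt (H a).1 ((H b).2 h)

end Pool.Agent.KACG.H8
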